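import Mathlib

namespace Pool.Agent.Results.MP_0ef12e_an.Root

section defs
variable {A : Type}

/-- `θ` is a random substitution: nonempty finite sets of nonempty words. -/
def IsRS (θ : A → Finset (List A)) : Prop := ∀ a, (θ a).Nonempty ∧ ∀ u ∈ θ a, u ≠ []

/-- The extension of `θ` to words. -/
def ext (θ : A → Finset (List A)) : List A → Set (List A)
  | [] => {[]}
  | a :: u => {w | ∃ v ∈ θ a, ∃ v' ∈ ext θ u, w = v ++ v'}

/-- The set `θ^p(a)`. -/
def pw (θ : A → Finset (List A)) (a : A) : ℕ → Set (List A)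
  | 0 => {[a]}
  | p + 1 => {w | ∃ u ∈ pw θ a p, w ∈ ext θ u}

/-- Legal words. -/
def Legal (θ : A → Finset (List A)) (w : List A) : Prop := ∃ a p, ∃ u ∈ pw θ a p, w <:+: u

/-- The RS-subshift. -/
def XS (θ : A → Finset (List A)) : Set (ℤ → A) :=
  {x | ∀ (i : ℤ) (n : ℕ), Legal θ ((List.range n).map fun t : ℕ => x (i + t))}

def Compatible [DecidableEq A] (θ : A → Finset (List A)) : Prop :=
  ∀ a, ∀ u ∈ θ a, ∀ v ∈ θ a, ∀ b, u.count b = v.count b

def Primitive (θ : A → Finset (List A)) : Prop :=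
  ∃ p, 1 ≤ p ∧ ∀ a b, ∃ u ∈ pw θ b p, a ∈ u

def NonDegenerate (θ : A → Finset (List A)) : Prop := ∃ a, 2 ≤ (θ a).card

end defs

def W : Finset (List (Fin 3)) :=
  {[2, 0, 1, 0, 1], [2, 0, 1, 1, 0], [2, 1, 0, 0, 1], [2, 1, 0, 1, 0]}

def th : Fin 3 → Finset (List (Fin 3)) := fun _ => W

lemma mem_ext (u w : List (Fin 3)) : w ∈ ext th u ↔
    ∃ L : List (List (Fin 3)), L.length = u.length ∧ (∀ v ∈ L, v ∈ W) ∧ w = L.flatten := by
  induction u generalizing w with
  | nil => simp [ext]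
  | cons a u ih =>
    constructor
    · rintro ⟨v, hv, v', hv', rfl⟩
      obtain ⟨L, h1, h2, rfl⟩ := (ih _).1 hv'
      exact ⟨v :: L, by simp [h1], by simpa using ⟨hv, h2⟩, by simp⟩
    · rintro ⟨L, h1, h2, rfl⟩
      cases L with
      | nil => simp at h1
      | cons v L =>
        exact ⟨v, h2 v (by simp), _, (ih _).2 ⟨L, by simpa using h1,
          fun z hz => h2 z (by simp [hz]), rfl⟩, by simp⟩

lemma exists_pw (a : Fin 3) (p : ℕ) : ∃ u ∈ pw th a p, u.length = 5 ^ p := by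
  induction p with
  | zero => exact ⟨[a], rfl, rfl⟩
  | succ p ih =>
    obtain ⟨u, hu, hl⟩ := ih
    refine ⟨_, ⟨u, hu, (mem_ext _ _).2 ⟨List.replicate u.length [2, 0, 1, 0, 1], by simp,
      fun v hv => ?_, rfl⟩⟩, ?_⟩
    · rw [List.eq_of_mem_replicate hv]
      decide
    · simp [hl, pow_succ]

def loc (a0 a1 a2 a3 a4 : Fin 3) : Prop :=
  (a0 = 2 ∨ a1 = 2 ∨ a2 = 2 ∨ a3 = 2 ∨ a4 = 2) ∧
    (a0 = 2 → a1 ≠ 2 ∧ a2 ≠ 2 ∧ a3 ≠ 2 ∧ a4 ≠ 2 ∧ a2 ≠ a1 ∧ a4 ≠ a3)

instance (a0 a1 a2 a3 a4 : Fin 3) : Decidable (loc a0 a1 a2 a3 a4) := by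
  unfold loc
  infer_instance

lemma loc_of (L : List (List (Fin 3))) (hL : ∀ v ∈ L, v ∈ W) {a0 a1 a2 a3 a4 a5 : Fin 3}
    (h : [a0, a1, a2, a3, a4, a5] <:+: L.flatten) : loc a0 a1 a2 a3 a4 := by
  induction L with
  | nil => simp at h
  | cons w L ih =>
    have hw := hL w (by simp)
    have ih := ih fun z hz => hL z (by simp [hz])
    cases L with
    | nil =>
      have := h.length_le
      simp only [W, Finset.mem_insert, Finset.mem_singleton] at hw
      rcases hw with rfl | rfl | rfl | rfl <;> simp at this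
    | cons w' L =>
      have hw' := hL w' (by simp)
      rw [List.flatten_cons] at h
      simp only [W, Finset.mem_insert, Finset.mem_singleton] at hw hw'
      rcases hw with rfl | rfl | rfl | rfl <;>
      · simp only [List.cons_append, List.nil_append] at h
        rw [List.infix_cons_iff, List.infix_cons_iff, List.infix_cons_iff, List.infix_cons_iff,
          List.infix_cons_iff] at h
        rcases h with h | h | h | h | h | h
        rotate_right
        · exact ih h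
        all_goals
          rcases hw' with rfl | rfl | rfl | rfl <;>
          · simp only [List.flatten_cons, List.cons_append, List.cons_prefix_cons] at h
            obtain ⟨rfl, rfl, rfl, rfl, rfl, -⟩ := h
            decide

/-- Points with phase `r`. -/
def Ph (x : ℤ → Fin 3) (r : ℤ) : Prop :=
  (∀ i, x i = 2 ↔ (i - r) % 5 = 0) ∧ ∀ i, (i - r) % 5 = 1 ∨ (i - r) % 5 = 3 → x (i + 1) ≠ x i

lemma ph_of_mem {x : ℤ → Fin 3} (hx : x ∈ XS th) : ∃ r, Ph x r := by
  have h : ∀ i, loc (x i) (x (i + 1)) (x (i + 2)) (x (i + 3)) (x (i + 4)) := by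
    intro i
    obtain ⟨a, p, u, hu, hw⟩ := hx i 6
    cases p with
    | zero =>
      have := hw.length_le
      rw [show u = [a] from hu] at this
      simp at this
    | succ p =>
      obtain ⟨u', -, hu'⟩ := hu
      obtain ⟨L, -, hL, rfl⟩ := (mem_ext _ _).1 hu'
      refine loc_of L hL (a5 := x (i + 5)) ?_
      simpa [List.range_succ] using hw
  obtain ⟨r, hr⟩ : ∃ r, x r = 2 := by
    rcases (h 0).1 with h | h | h | h | h <;> exact ⟨_, h⟩
  have no : ∀ s j, x s = 2 → s < j → j < s + 5 → x j ≠ 2 := by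
    intro s j hs h1 h2
    obtain ⟨a, b, c, d, -⟩ := (h s).2 hs
    have : j = s + 1 ∨ j = s + 2 ∨ j = s + 3 ∨ j = s + 4 := by omega
    rcases this with rfl | rfl | rfl | rfl <;> assumption
  have ex : ∀ s, ∃ j, s ≤ j ∧ j < s + 5 ∧ x j = 2 := by
    intro s
    rcases (h s).1 with h | h | h | h | h <;> exact ⟨_, by omega, by omega, h⟩
  have hk : ∀ k : ℤ, x (r + 5 * k) = 2 := by
    intro k
    induction k using Int.induction_on with
    | zero => simpa using hr
    | succ k ih =>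
      obtain ⟨j, h1, h2, h3⟩ := ex (r + 5 * k + 1)
      by_cases hj : j = r + 5 * (k + 1)
      · exact hj ▸ h3
      · exact absurd h3 (no _ j ih (by omega) (by omega))
    | pred k ih =>
      obtain ⟨j, h1, h2, h3⟩ := ex (r + 5 * (-k - 1))
      by_cases hj : j = r + 5 * (-k - 1)
      · exact hj ▸ h3
      · exact absurd ih (no j _ h3 (by omega) (by omega))
  refine ⟨r, fun i => ⟨fun hi => ?_, fun hi => ?_⟩, fun i hi => ?_⟩
  · by_contra h0
    exact no _ i (hk ((i - r) / 5)) (by omega) (by omega) hi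
  · have : i = r + 5 * ((i - r) / 5) := by omega
    rw [this]
    exact hk _
  · obtain ⟨-, -, -, -, a, b⟩ := (h _).2 (hk ((i - r) / 5))
    rcases hi with hi | hi
    · rwa [show r + 5 * ((i - r) / 5) + 2 = i + 1 by omega,
        show r + 5 * ((i - r) / 5) + 1 = i by omega] at a
    · rwa [show r + 5 * ((i - r) / 5) + 4 = i + 1 by omega,
        show r + 5 * ((i - r) / 5) + 3 = i by omega] at b

def win (x : ℤ → Fin 3) (i : ℤ) (n : ℕ) : List (Fin 3) :=
  (List.range n).map fun t : ℕ => x (i + t)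

lemma win_add (x : ℤ → Fin 3) (i : ℤ) (m n : ℕ) :
    win x i (m + n) = win x i m ++ win x (i + m) n := by
  simp only [win, List.range_add, List.map_append, List.map_map]
  congr 1
  refine List.map_congr_left fun t _ => ?_
  simp [add_assoc]

lemma mem_of_ph {x : ℤ → Fin 3} {r : ℤ} (h : Ph x r) : x ∈ XS th := by
  intro i n
  have hW : ∀ a1 a2 a3 a4 : Fin 3, a1 ≠ 2 → a2 ≠ 2 → a3 ≠ 2 → a4 ≠ 2 → a2 ≠ a1 → a4 ≠ a3 →
      [2, a1, a2, a3, a4] ∈ W := by decide
  have hb : ∀ s, (s - r) % 5 = 0 → win x s 5 ∈ W := by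
    intro s hs
    have e : win x s 5 = [x s, x (s + 1), x (s + 2), x (s + 3), x (s + 4)] := by
      simp [win, List.range_succ]
    rw [e, (h.1 s).2 hs]
    refine hW _ _ _ _ (fun e => ?_) (fun e => ?_) (fun e => ?_) (fun e => ?_) ?_ ?_
    iterate 4
      rw [h.1] at e
      omega
    · simpa [add_assoc] using h.2 (s + 1) (by omega)
    · simpa [add_assoc] using h.2 (s + 3) (by omega)
  have hN : ∀ (N : ℕ) (s : ℤ), (s - r) % 5 = 0 → ∃ L : List (List (Fin 3)), L.length = N ∧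
      (∀ v ∈ L, v ∈ W) ∧ win x s (5 * N) = L.flatten := by
    intro N
    induction N with
    | zero => exact fun s _ => ⟨[], rfl, by simp, rfl⟩
    | succ N ih =>
      intro s hs
      obtain ⟨L, h1, h2, h3⟩ := ih (s + (5 : ℕ)) (by omega)
      refine ⟨win x s 5 :: L, by simp [h1], by simpa using ⟨hb s hs, h2⟩, ?_⟩
      rw [show 5 * (N + 1) = 5 + 5 * N by ring, win_add, h3, List.flatten_cons]
  obtain ⟨d, hd⟩ : ∃ d : ℕ, (d : ℤ) = (i - r) % 5 := ⟨((i - r) % 5).toNat, by omega⟩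
  obtain ⟨u, hu, hl⟩ := exists_pw 0 n
  obtain ⟨L, h1, h2, h3⟩ := hN (5 ^ n) (i - d) (by omega)
  refine ⟨0, n + 1, L.flatten, ⟨u, hu, (mem_ext _ _).2 ⟨L, h1.trans hl.symm, h2, rfl⟩⟩, ?_⟩
  have hn : n < 5 ^ n := Nat.lt_pow_self (by norm_num)
  obtain ⟨e, he⟩ : ∃ e, 5 * 5 ^ n = d + n + e := ⟨5 * 5 ^ n - (d + n), by omega⟩
  rw [← h3, he, win_add, win_add, sub_add_cancel]
  exact List.infix_append _ _ _

def rule (a b c d : Fin 3) : Fin 3 := if c = 2 ∨ b = 2 then d else if a = 2 then 2 else c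

def F (x : ℤ → Fin 3) : ℤ → Fin 3 := fun i => rule (x (i - 2)) (x (i - 1)) (x i) (x (i + 1))

lemma F_cont : Continuous F := by
  refine continuous_pi fun i => ?_
  exact (continuous_of_discreteTopology
    (f := fun q : Fin 3 × Fin 3 × Fin 3 × Fin 3 => rule q.1 q.2.1 q.2.2.1 q.2.2.2)).comp
    (f := fun x : ℤ → Fin 3 => (x (i - 2), x (i - 1), x i, x (i + 1))) (by fun_prop)

lemma F_eq {x : ℤ → Fin 3} {r : ℤ} (h : Ph x r) (i : ℤ) : F x i =
    if (i - r) % 5 = 0 ∨ (i - r) % 5 = 1 then x (i + 1) else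
      if (i - r) % 5 = 2 then 2 else x i := by
  simp only [F, rule, h.1]
  refine if_congr (by omega) rfl (if_congr (by omega) rfl rfl)

lemma ph_F {x : ℤ → Fin 3} {r : ℤ} (h : Ph x r) : Ph (F x) (r + 2) := by
  refine ⟨fun i => ?_, fun i hi => ?_⟩
  · rw [F_eq h]
    split_ifs with a b
    · rw [h.1]; omega
    · simp only [true_iff]; omega
    · rw [h.1]; omega
  · rw [F_eq h, F_eq h]
    rcases hi with hi | hi
    · rw [if_neg (by omega), if_neg (by omega), if_neg (by omega), if_neg (by omega)]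
      exact h.2 i (by omega)
    · rw [if_pos (by omega), if_pos (by omega)]
      exact h.2 (i + 1) (by omega)

lemma FF {x : ℤ → Fin 3} {r : ℤ} (h : Ph x r) (i : ℤ) : F (F x) i = x (i + 1) := by
  rw [F_eq (ph_F h), F_eq h, F_eq h]
  split_ifs <;> first | rfl | omega | exact ((h.1 _).2 (by omega)).symm

lemma ph_shift {x : ℤ → Fin 3} {r : ℤ} (h : Ph x r) : Ph (fun i => x (i - 1)) (r + 1) := by
  refine ⟨fun i => ?_, fun i hi => ?_⟩
  · rw [h.1]; omega
  · simpa using h.2 (i - 1) (by omega)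

noncomputable def root : XS th ≃ₜ XS th where
  toFun x := ⟨F x.1, mem_of_ph (ph_F (ph_of_mem x.2).choose_spec)⟩
  invFun x := ⟨F fun i => x.1 (i - 1), mem_of_ph (ph_F (ph_shift (ph_of_mem x.2).choose_spec))⟩
  left_inv x := by
    refine Subtype.ext (funext fun i => ?_)
    have h := FF (ph_of_mem x.2).choose_spec (i - 1)
    rw [sub_add_cancel] at h
    rw [← h]
    show F (fun i => F x.1 (i - 1)) i = _
    simp only [F]
    congr 2 <;> ring_nf
  right_inv x := by
    refine Subtype.ext (funext fun i => ?_)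
    simpa using FF (ph_shift (ph_of_mem x.2).choose_spec) i
  continuous_toFun := (F_cont.comp continuous_subtype_val).subtype_mk _
  continuous_invFun := (F_cont.comp (continuous_pi fun i =>
    (continuous_apply (i - 1)).comp continuous_subtype_val)).subtype_mk _

theorem result : ∃ θ : Fin 3 → Finset (List (Fin 3)), IsRS θ ∧ Primitive θ ∧ Compatible θ ∧
    NonDegenerate θ ∧ (XS θ).Nonempty ∧ ∃ f : XS θ ≃ₜ XS θ,
      (∀ x y : XS θ, (∀ i, y.1 i = x.1 (i + 1)) → ∀ i, (f y).1 i = (f x).1 (i + 1)) ∧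
      ∀ (x : XS θ) (i : ℤ), (f (f x)).1 i = x.1 (i + 1) := by
  refine ⟨th, by unfold IsRS; decide, ⟨1, le_rfl, fun a b => ⟨[2, 0, 1, 0, 1], ⟨[b], rfl,
    [2, 0, 1, 0, 1], by simp [th, W], [], rfl, rfl⟩, by revert a; decide⟩⟩,
    by unfold Compatible; decide, ⟨0, by decide⟩, ?_, root, fun x y h i => ?_,
    fun x i => FF (ph_of_mem x.2).choose_spec i⟩
  · refine ⟨fun i => if i % 5 = 0 then 2 else if i % 5 = 1 ∨ i % 5 = 3 then 0 else 1,
      mem_of_ph (r := 0) ⟨fun i => ?_, fun i hi => ?_⟩⟩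
    · beta_reduce
      split_ifs with a b <;> simp [*]
    · beta_reduce
      rw [if_neg (by omega), if_neg (by omega), if_neg (by omega), if_pos (by omega)]
      decide
  · show F y.1 i = F x.1 (i + 1)
    simp only [F, h]
    congr 2 <;> ring_nf

end Pool.Agent.Results.MP_0ef12e_an.Root
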